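import Pool.Agent.H61.HB.Stmts5

/-! # Board fn3 (MP_91403e_an), row SM3: the lattice sum of `|k|⁻³` -/

set_option autoImplicit false

namespace HB

theorem sm3_int : Summable fun n : ℤ => (1 + (n : ℝ) ^ 2) ^ (-(3 / 4) : ℝ) := by
  have h1 : Summable fun n : ℤ => |(n : ℝ)| ^ (-(3 / 2) : ℝ) :=
    Real.summable_abs_int_rpow (by norm_num)
  have h2 : Summable fun n : ℤ => if n = 0 then (1 : ℝ) else 0 :=
    (hasSum_ite_eq (0 : ℤ) (1 : ℝ)).summable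
  refine Summable.of_nonneg_of_le (fun n => by positivity) (fun n => ?_) (h1.add h2)
  by_cases hn : n = 0
  · subst hn
    rw [if_pos rfl]
    have h3 : (0 : ℝ) ≤ |((0 : ℤ) : ℝ)| ^ (-(3 / 2) : ℝ) := by positivity
    have h4 : (1 + ((0 : ℤ) : ℝ) ^ 2) ^ (-(3 / 4) : ℝ) = 1 := by
      rw [Int.cast_zero, zero_pow (by norm_num), add_zero, Real.one_rpow]
    linarith
  · rw [if_neg hn, add_zero]
    have hn' : (n : ℝ) ≠ 0 := by exact_mod_cast hn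
    have h3 : (0 : ℝ) < (n : ℝ) ^ 2 := by positivity
    have h4 : (1 + (n : ℝ) ^ 2) ^ (-(3 / 4) : ℝ) ≤ ((n : ℝ) ^ 2) ^ (-(3 / 4) : ℝ) :=
      Real.rpow_le_rpow_of_nonpos h3 (by linarith) (by norm_num)
    refine h4.trans (le_of_eq ?_)
    rw [← sq_abs, ← Real.rpow_natCast, ← Real.rpow_mul (abs_nonneg _)]
    norm_num

theorem sm3_two : (2 : ℝ) ^ (3 / 2 : ℝ) ≤ 3 := by
  have h : (2 : ℝ) ^ (3 / 2 : ℝ) = 2 * √2 := by
    rw [show (3 / 2 : ℝ) = 1 + 1 / 2 by norm_num, Real.rpow_add (by norm_num), Real.rpow_one,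
      ← Real.sqrt_eq_rpow]
  rw [h]
  have h2 : √2 ≤ 3 / 2 := by
    rw [Real.sqrt_le_left (by norm_num)]
    norm_num
  linarith

/-- **SM3**. -/
theorem sm3_thm : SM3Stmt := by
  have h := (sm3_int.mul_of_nonneg sm3_int (fun n => by positivity)
    (fun n => by positivity)).mul_left 3
  have hs0 : ∀ k : Z2, 0 ≤ sq k := fun k => by
    unfold sq
    positivity
  refine Summable.of_nonneg_of_le (fun k => inv_nonneg.2 (mul_nonneg (hs0 k) (Real.sqrt_nonneg _)))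
    (fun k => ?_) h
  by_cases hk : sq k = 0
  · rw [hk, zero_mul, inv_zero]
    positivity
  · have hpos : 0 < sq k := lt_of_le_of_ne (hs0 k) (Ne.symm hk)
    have hone : 1 ≤ sq k := by
      have e : sq k = ((k.1 ^ 2 + k.2 ^ 2 : ℤ) : ℝ) := by
        unfold sq
        push_cast
        rfl
      rw [e] at hpos ⊢
      exact_mod_cast hpos
    have hX : (1 + (k.1 : ℝ) ^ 2) * (1 + (k.2 : ℝ) ^ 2) ≤ (2 * sq k) ^ 2 := by
      unfold sq at hone ⊢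
      nlinarith [sq_nonneg (k.1 : ℝ), sq_nonneg (k.2 : ℝ),
        mul_nonneg (sq_nonneg (k.1 : ℝ)) (sq_nonneg (k.2 : ℝ)),
        sq_nonneg ((k.1 : ℝ) ^ 2), sq_nonneg ((k.2 : ℝ) ^ 2)]
    have hX0 : 0 < (1 + (k.1 : ℝ) ^ 2) * (1 + (k.2 : ℝ) ^ 2) := by positivity
    have h1 : ((2 * sq k) ^ 2) ^ (-(3 / 4) : ℝ) ≤
        ((1 + (k.1 : ℝ) ^ 2) * (1 + (k.2 : ℝ) ^ 2)) ^ (-(3 / 4) : ℝ) :=
      Real.rpow_le_rpow_of_nonpos hX0 hX (by norm_num)
    have h2 : ((2 * sq k) ^ 2) ^ (-(3 / 4) : ℝ) = ((2 * sq k) ^ (3 / 2 : ℝ))⁻¹ := by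
      rw [← Real.rpow_natCast, ← Real.rpow_mul (by positivity), ← Real.rpow_neg (by positivity)]
      norm_num
    have h3 : (2 * sq k) ^ (3 / 2 : ℝ) = (2 : ℝ) ^ (3 / 2 : ℝ) * (sq k * √(sq k)) := by
      rw [Real.mul_rpow (by norm_num) (hs0 k)]
      congr 1
      rw [show (3 / 2 : ℝ) = 1 + 1 / 2 by norm_num, Real.rpow_add hpos, Real.rpow_one,
        ← Real.sqrt_eq_rpow]
    have hq : 0 < sq k * √(sq k) := mul_pos hpos (Real.sqrt_pos.2 hpos)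
    have h4 : (sq k * √(sq k))⁻¹ ≤ 3 * ((2 * sq k) ^ (3 / 2 : ℝ))⁻¹ := by
      rw [h3, mul_inv ((2 : ℝ) ^ (3 / 2 : ℝ)) (sq k * √(sq k)), ← mul_assoc 3]
      have h5 : (1 : ℝ) ≤ 3 * ((2 : ℝ) ^ (3 / 2 : ℝ))⁻¹ := by
        rw [← div_eq_mul_inv, le_div_iff₀ (by positivity), one_mul]
        exact sm3_two
      have h6 := mul_le_mul_of_nonneg_right h5 (inv_nonneg.2 hq.le)
      rw [one_mul] at h6
      exact h6
    rw [← h2] at h4
    refine h4.trans ?_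
    rw [Real.mul_rpow (by positivity) (by positivity)] at h1
    exact mul_le_mul_of_nonneg_left h1 (by norm_num)

end HB
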