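import Pool.Agent.H61.HB.Stmts

/-! Row YNG of board `hbg`: Young's inequality for `ℓ¹ * ℓ² ⊂ ℓ²` on `ℤ × ℤ`. -/

set_option autoImplicit false

namespace HB

def YNG.e : Z2 × Z2 ≃ Z2 × Z2 where
  toFun x := (x.2, x.1 - x.2)
  invFun y := (y.1 + y.2, y.1)
  left_inv x := by
    ext <;> simp
  right_inv y := by
    ext <;> simp

theorem yng_thm : YNGStmt := by
  intro p q hp hq hsp hsq
  have hQ2 : ∀ k, q k ^ 2 ≤ ∑' k, q k ^ 2 := fun k => hsq.le_tsum k (fun j _ => sq_nonneg _)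
  have hQ : ∀ k, q k ≤ √(∑' k, q k ^ 2) := fun k => Real.le_sqrt_of_sq_le (hQ2 k)
  have h1 : ∀ k, Summable fun l => p l * q (k - l) := fun k =>
    Summable.of_nonneg_of_le (fun l => mul_nonneg (hp l) (hq _))
      (fun l => mul_le_mul_of_nonneg_left (hQ _) (hp l)) (hsp.mul_right _)
  have h2 : ∀ k, Summable fun l => p l * q (k - l) ^ 2 := fun k =>
    Summable.of_nonneg_of_le (fun l => mul_nonneg (hp l) (sq_nonneg _))
      (fun l => mul_le_mul_of_nonneg_left (hQ2 _) (hp l)) (hsp.mul_right _)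
  have hP0 : 0 ≤ ∑' l, p l := tsum_nonneg hp
  have h3 : ∀ k, (∑' l, p l * q (k - l)) ^ 2 ≤ (∑' l, p l) * ∑' l, p l * q (k - l) ^ 2 := by
    intro k
    rcases hP0.lt_or_eq with hP | hP
    · obtain ⟨c, hc⟩ : ∃ c : ℝ, c = (∑' l, p l * q (k - l)) / ∑' l, p l := ⟨_, rfl⟩
      have h4 : 0 ≤ ∑' l, p l * (q (k - l) - c) ^ 2 :=
        tsum_nonneg fun l => mul_nonneg (hp l) (sq_nonneg _)
      have h5 : ∑' l, p l * (q (k - l) - c) ^ 2 =
          (∑' l, p l * q (k - l) ^ 2) - 2 * c * (∑' l, p l * q (k - l)) + c ^ 2 * ∑' l, p l := by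
        have h6 : ∀ l, p l * (q (k - l) - c) ^ 2 =
            (p l * q (k - l) ^ 2 - 2 * c * (p l * q (k - l))) + c ^ 2 * p l := by
          intro l
          ring
        simp_rw [h6]
        rw [Summable.tsum_add (((h2 k).sub ((h1 k).mul_left _))) (hsp.mul_left _),
          Summable.tsum_sub (h2 k) ((h1 k).mul_left _), tsum_mul_left, tsum_mul_left]
      rw [h5] at h4
      have h7 : c * ∑' l, p l = ∑' l, p l * q (k - l) := by
        rw [hc, div_mul_cancel₀ _ hP.ne']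
      rw [← h7] at h4 ⊢
      nlinarith
    · have h4 : ∀ l, p l = 0 := by
        intro l
        have := hsp.le_tsum l (fun j _ => hp j)
        have h5 := hp l
        linarith
      simp [h4]
  have hF : Summable fun x : Z2 × Z2 => p x.1 * q x.2 ^ 2 :=
    hsp.mul_of_nonneg hsq hp (fun _ => sq_nonneg _)
  have h4 : Summable fun x : Z2 × Z2 => p x.2 * q (x.1 - x.2) ^ 2 :=
    (YNG.e.summable_iff (f := fun x : Z2 × Z2 => p x.1 * q x.2 ^ 2)).mpr hF
  have h5 : Summable fun k => ∑' l, p l * q (k - l) ^ 2 := h4.prod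
  have h6 : ∑' k, ∑' l, p l * q (k - l) ^ 2 = (∑' l, p l) * ∑' k, q k ^ 2 := by
    rw [hsp.tsum_mul_tsum hsq hF, ← YNG.e.tsum_eq (fun x : Z2 × Z2 => p x.1 * q x.2 ^ 2)]
    exact (h4.tsum_prod).symm
  have h7 : Summable fun k => (∑' l, p l * q (k - l)) ^ 2 :=
    Summable.of_nonneg_of_le (fun k => sq_nonneg _) h3 (h5.mul_left _)
  refine ⟨h1, h7, ?_⟩
  calc ∑' k, (∑' l, p l * q (k - l)) ^ 2
      ≤ ∑' k, (∑' l, p l) * ∑' l, p l * q (k - l) ^ 2 := h7.tsum_le_tsum h3 (h5.mul_left _)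
    _ = (∑' l, p l) ^ 2 * ∑' k, q k ^ 2 := by
        rw [tsum_mul_left, h6]
        ring

end HB
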